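import Pool.Agent.H477.E.StmU
import Pool.Agent.H477.E.Strip

set_option autoImplicit false

/-!
# Project ED (helper487): the zeros of the derivatives of `ξ` are evenly spaced

Goal (MP_db1c88_nt, RH page, weight 100): for every `ε > 0` there are `c > 0`, `C`, `T₀` such that for `T ≥ T₀` and
`400 m ≤ log T` the zeros `s` of `ξ^{(m)}` with `T < Im s ≤ 2T` which are not (simple, on the line, with both
neighbouring zeros on the line at a distance `(1 ± ε) 2π / log (Im s)`) number at most `C e^{-cm}` times all of them.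
Extension of project E of helper477 (`Pool/Agent/H477/E`): same good points, sharper local theorem.

Deliver each as `theorem X_proof : S_X` (or with the listed hypotheses `S_Y → ... → S_X`).
-/

open Finset Complex Filter Topology Metric Set MeasureTheory

namespace Pool.Agent.H487.ED

open Pool.Agent.Helper242.KK (FT Ph)
open Pool.Agent.H477.Jen
open Pool.Agent.H477.E

noncomputable section

/-- **S_SADE.** `S_SADDLE` (`H477/E/StmA.lean`) with an arbitrarily small loss.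

Proof: copy `saddle_main` of `Pool/Agent/H253/E/Sad.lean` (all lemmas of `H253/E/SadA.lean`, `Sad.lean` can be used as they are).
WLOG `ε ≤ 1/2000`; `ε0 = min (1/10^8) (ε/10^7)`-like, `k0` large in terms of `ε`. The only changes: (i) the saddle `φ` of
`saddle` satisfies `‖φ‖ ≤ 640 ε0`: from `D1 K G φ = 0` one has `‖cexp (I φ) - 1‖ = ‖deriv G φ‖/K ≤ 320 ε0` and
`‖φ‖ ≤ 2 ‖cexp (I φ) - 1‖` for `‖φ‖ ≤ 1/1000`; (ii) the bound `value` becomes
`K + (G 0).re - ε/4 K ≤ (Psi K G φ).re` (mean value inequality on `closedBall 0 ‖φ‖`, derivative `≤ K (2 ‖φ‖ + 320 ε0)`);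
(iii) at the end `P = exp (K - ε K + (G 0).re)`, `exp (3ε/4 K) / (4 √K) ≥ 2` for `K ≥ k0`, `V ≤ P` as `993/1000 + 2 ε0 ≤ 1 - ε`. -/
def S_SADE : Prop := ∀ ε : ℝ, 0 < ε → ∃ ε0 : ℝ, 0 < ε0 ∧ ∃ k0 : ℕ, ∀ k : ℕ, k0 ≤ k → ∀ G : ℂ → ℂ,
  DifferentiableOn ℂ G (ball 0 (1 / 4)) → (∀ z ∈ ball (0 : ℂ) (1 / 4), |(G z).re| ≤ ε0 * k) →
  Real.exp (k - ε * k + (G 0).re) ≤
    ‖∫ x in (-(1 / 8) : ℝ)..(1 / 8), cexp (k * (cexp (I * x) - I * x) + G x)‖

/-- **S_TWOE.** `LGd.two` (`H477/E/Loc2.lean`) with an arbitrarily small loss. To be proved from `S_SADE`.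

Proof: WLOG `ε ≤ 1/1000`. Copy `LGd.main` and `LGd.two` of `Pool/Agent/H477/E/Loc2.lean`: in `LGd.main` replace `k / 2000` by `ε' * k` (`ε' = ε/4`)
and `η = min (ε0/4) (ε/100)`; in `LGd.two` the outer part is `exp (-k/320 + ...)`, negligible against `exp (-(ε/2) k)` since
`ε ≤ 1/1000`; the factors `4`, `exp 4` are absorbed by `exp (ε k/4)` for `k ≥ k0(ε)`. -/
def S_TWOE : Prop := ∀ ε : ℝ, 0 < ε → ∃ η0 : ℝ, 0 < η0 ∧ η0 ≤ 1 ∧ ∃ k0 : ℕ, ∀ (f : ℂ → ℂ), Differentiable ℂ f →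
  ∀ k : ℕ, k0 ≤ k → ∀ lam t : ℝ, 0 < lam → k / lam ≤ 1 / 100 → LGd f k lam t η0 → ∀ c : ℂ, ‖c - t‖ ≤ k / lam / 8 →
      ‖f (t - I * ((k / lam : ℝ) : ℂ))‖ * Real.exp (-(lam * c.im) - ε * k) ≤
        ‖half f (-(I * ((k / lam : ℝ) : ℂ))) k c‖ ∧
      ‖half f (-(I * ((k / lam : ℝ) : ℂ))) k c‖ ≤
        ‖f (t - I * ((k / lam : ℝ) : ℂ))‖ * Real.exp (-(lam * c.im) + ε * k)

/-- **S_SPC.** Spacing of the real zeros of `f^{(k)}` near a good point. To be proved from `S_TWOE`.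

Proof. `P = half f u k`, `u = -(I r)`, `r = k/lam`. As in `logP` (`Pool/Agent/H477/E/Loc4.lean`) with `k/1000` replaced by `ε' k`:
`‖P'/P - I lam‖ ≤ 4 (2 ε' k)/(r/16) = 128 ε' lam` for `‖c - t‖ ≤ r/16` (`logder_bound`, `Loc1.lean`); take `ε' = ε/1000` (and `ε ≤ 1/2`).
By `half_decomp` (see `loc_zero` in `Loc4.lean`) a real `x` is a zero of `f^{(k)}` iff `(w P(x)).re = 0`, with `w = 1` or `w = I`.
(1) is `turn'` of `Loc4.lean` on `[a,b]` with `m = (1 - 128 ε') lam` (strict inequality `m (b-a) > π`).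
(2) Let `x < y` be zeros; WLOG `(w P).re ≠ 0` in between is NOT assumed: write `w P(s) = ρ(s) e^{i A(s)}` on `[x,y]`, `A' = Im (P'/P) ∈ (0, (1+128ε') lam]`
(e.g. `A(s) = A(x) + ∫_x^s Im(P'/P)` and `w P(s) = w P(x) exp(∫_x^s P'/P)`: both sides have the same logarithmic derivative). `Re (w P(x)) = 0` and
`Re (w P(y)) = 0` give `exp(∫_x^y P'/P) ` real, so `sin (A(y) - A(x)) = 0` with `A(y) - A(x) > 0`, hence `A(y) - A(x) ≥ π`, so
`(1+128ε') lam (y - x) ≥ π`. -/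
def S_SPC : Prop := ∀ ε : ℝ, 0 < ε → ∃ η0 : ℝ, 0 < η0 ∧ η0 ≤ 1 ∧ ∃ k0 : ℕ, ∀ f : ℂ → ℂ, Differentiable ℂ f →
  (∀ z, f ((starRingEnd ℂ) z) = (starRingEnd ℂ) (f z)) → ∀ k : ℕ, k0 ≤ k → ∀ lam t : ℝ, 0 < lam → k / lam ≤ 1 / 100 →
  LGd f k lam t η0 →
  (∀ a b : ℝ, t - k / lam / 16 ≤ a → b ≤ t + k / lam / 16 → (1 + ε) * (Real.pi / lam) ≤ b - a →
    ∃ x : ℝ, a ≤ x ∧ x ≤ b ∧ iteratedDeriv k f x = 0) ∧
  (∀ x y : ℝ, t - k / lam / 16 ≤ x → x < y → y ≤ t + k / lam / 16 → iteratedDeriv k f x = 0 → iteratedDeriv k f y = 0 →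
    (1 - ε) * (Real.pi / lam) ≤ y - x)

/-- an evenly spaced zero of `Ξ^{(k)}`: real, simple, and both neighbouring zeros are real and at distance about `2π / log (Re w)` -/
def Ev (ε : ℝ) (k : ℕ) (w : ℂ) : Prop := w.im = 0 ∧ iteratedDeriv (k + 1) (FT Ph) w ≠ 0 ∧ ∃ a b : ℝ, a < w.re ∧ w.re < b ∧
  iteratedDeriv k (FT Ph) a = 0 ∧ iteratedDeriv k (FT Ph) b = 0 ∧
  (∀ z : ℂ, iteratedDeriv k (FT Ph) z = 0 → a < z.re → z.re < b → z = w) ∧
  |(w.re - a) * Real.log w.re / (2 * Real.pi) - 1| ≤ ε ∧ |(b - w.re) * Real.log w.re / (2 * Real.pi) - 1| ≤ ε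

/-- **S_WINE.** `S_WINU` (`H477/E/StmU.lean`) for the zeros which are not evenly spaced. To be proved from
`S_LGU, S_LOC, S_SPC, S_JEN, S_RUN, S_B0U, S_CHAINU, S_UNITU`.

Proof: copy `Pool/Agent/H477/E/WinU.lean` (`winu_proof`); `η` = minimum of the `η0` of `S_LOC` and of `S_SPC (ε/3)` (note `LGd f k lam t η` is monotone in `η`:
`LGd f k lam t η → η ≤ η' → LGd f k lam t η'`, needed lemma, easy). Only the hypothesis (2) of `S_RUN` changes (every window within `|Im w|` of `Re w` is bad),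
in the case `|w.im| ≤ r/40` with the window `j` not bad, `t ∉ B` in the window: the disc `‖z - t‖ ≤ r/16` contains `w`, so `w` is real and simple, and one has to
show `Ev ε k w` (a contradiction). `w.re` is within `r/64` of `t`. By `S_SPC` (1) with `[w.re + δ, w.re + δ + (1+ε/3) π/lam]`, `δ → 0` — or simply: the zeros of
`Ξ^{(k)}` in the compact set `[w.re + (1-ε/3)π/lam, w.re + (1 + ε/2) π/lam]` (nonempty: by (1) applied with `a = w.re + κ`, `κ = (ε/6) π/lam`, and then the zero found is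
`≥ w.re + (1 - ε/3) π/lam` by (2)) are at mutual distances `≥ (1-ε/3) π/lam` by (2), so the one found, `b`, is the only zero in `(w.re, b]`: any real zero `z` with
`w.re < z < b` would give `b - w.re ≥ 2 (1-ε/3)π/lam > (1+ε/2) π/lam`. Same for `a`. Points are inside `[t - r/16, t + r/16]` since `π/lam ≤ r/1000` for `k ≥ 4000`.
A zero `z` with `a < z.re < b`: if `|z.im| ≤ r/40` it lies in the disc `‖z - t‖ ≤ r/16` (`|z.re - t| ≤ r/32`), so it is real, and `= w` by what was said. If `|z.im| > r/40`: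
the chain (`hCH`, applied to `z`) gives a zero `ρ` of `ζ` in `E0` with `|ρ.im - z.re| ≤ 6/5 √k b'`, `b' = ρ.re - 1/2 ≥ 10/11·r/40 ≥ r/45`, and
`|z.re - x| ≤ r/32 + r/64 ≤ 2.2 b'`-ish for `x` in the window `j`, hmm: use `|z.re - w.re| ≤ 2π/lam ≤ r/500 ≤ 45/500 b'`, so the window `j` (it contains `w.re`)
satisfies `bad2 j` as `(6/5 + 45/500) √k b' ≤ 3 √k b'`: contradiction. The distances: `π/lam = 2π/(log T - log 2π)` and `|log w.re - log T| ≤ 1/L`-small, so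
`(b - w.re) log(w.re)/(2π) ∈ [(1-ε/3)(1 - 1/L..), (1+ε/2)(1 + 4/L)] ⊂ [1-ε, 1+ε]` for `T ≥ T0(ε)`, WLOG `ε ≤ 1/2`.
(For `¬ Ev` with `S` in the statement there is nothing else to change: `hSim` etc. only use the chain for `w.im ≠ 0`.) -/
def S_WINE : Prop := ∀ ε : ℝ, 0 < ε → ∃ c : ℝ, 0 < c ∧ ∃ k0 : ℕ, ∃ T0 : ℝ, ∀ T : ℝ, T0 ≤ T → ∀ k : ℕ, k0 ≤ k →
  300 * (k : ℝ) + 300 ≤ Real.log T → ∀ S : Finset ℂ,
  (∀ w ∈ S, iteratedDeriv k (FT Ph) w = 0 ∧ ¬ Ev ε k w ∧ |w.re - T| ≤ T / (10 * Real.log T)) →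
  ∑ w ∈ S, (analyticOrderNatAt (iteratedDeriv k (FT Ph)) w : ℝ) ≤ Real.exp (-c * k) * T

/-- **S_DYA.** Dyadic windows. To be proved from `S_WINE` and `S_ALLU`.

Proof: `Pool/Agent/H477/E/FinU2.lean` (`window_sumU`, `main_range`, part `main2`) with `Exc k` replaced by `fun w => ¬ Ev ε k w`, from `X1 = T` to `X = 2T`
by `step_ind` (`Strip.lean`) for `N X = cnt k NG X - cnt k NG T`: `N (2T) ≤ q·2T + 100 k q (cnt k True (2T) - cnt k True T)`, `q = exp (-c₁ k)`; and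
`cnt k True (2T) - cnt k True T ≥ 2T/(100k)` (`S_ALLU` at `2T`, `card_le_cnt`); absorb `k` in the exponential for `k ≥ k0`, and for `k < k0` use `C ≥ exp(c k0)` and `cnt_le`-type
monotonicity (`cnt k NG (2T) - cnt k NG T ≤ cnt k True (2T) - cnt k True T` by `cnt_split`). -/
def S_DYA : Prop := ∀ ε : ℝ, 0 < ε → ∃ c C T0 : ℝ, 0 < c ∧ ∀ T : ℝ, T0 ≤ T → ∀ k : ℕ, 400 * (k : ℝ) ≤ Real.log T →
  cnt k (fun w => ¬ Ev ε k w) (2 * T) - cnt k (fun w => ¬ Ev ε k w) T ≤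
    C * Real.exp (-c * k) * (cnt k (fun _ => True) (2 * T) - cnt k (fun _ => True) T)

end

end Pool.Agent.H487.ED
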