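import Pool.Agent.H477.E.LGU
import Pool.Agent.H477.E.Card
import Pool.Agent.H487.ED.Stm

set_option autoImplicit false

/-!
Zeros which are not evenly spaced, in a window, uniformly in `k` (S_WINE). Adapted from `H477/E/WinU.lean`.
-/

open Finset Complex Filter Topology Metric Set MeasureTheory

namespace Pool.Agent.H487.ED

open Pool.Agent.Helper242.KK (FT Ph)
open Pool.Agent.H477.Jen
open Pool.Agent.H477.E
open Pool.Agent.H477.EU (card_windows card_windows2)

theorem LGd_mono {f : ℂ → ℂ} {k : ℕ} {lam t η η' : ℝ} (hlam : 0 < lam) (h : LGd f k lam t η) (hη : η ≤ η') :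
    LGd f k lam t η' := by
  have hk : (0:ℝ) ≤ k := Nat.cast_nonneg k
  refine ⟨h.ne, fun z h1 h2 h3 => ?_, fun z h1 h2 => ?_⟩
  · refine le_trans ?_ (h.low z h1 h2 h3)
    apply mul_le_mul_of_nonneg_left _ (norm_nonneg _)
    apply Real.exp_le_exp.2
    have := mul_le_mul_of_nonneg_right hη hk
    linarith
  · refine (h.up z h1 h2).trans ?_
    apply mul_le_mul_of_nonneg_left _ (norm_nonneg _)
    apply Real.exp_le_exp.2
    have h3 : 0 ≤ 1 + (|z.re - t| + |z.im|) / (k / lam) := by positivity
    have h4 : η * k * (1 + (|z.re - t| + |z.im|) / (k / lam)) ≤ η' * k * (1 + (|z.re - t| + |z.im|) / (k / lam)) :=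
      mul_le_mul_of_nonneg_right (mul_le_mul_of_nonneg_right hη hk) h3
    linarith

/-- the local statement: neighbours of a zero near a good point -/
theorem nbrs {Z : ℂ → Prop} {t R s e : ℝ} {w : ℂ} (hs : 0 < s) (he : 0 < e) (he1 : e ≤ 1 / 6)
    (hreal : ∀ z : ℂ, |z.re - t| ≤ R → |z.re - w.re| ≤ 2 * s → Z z → z.im = 0)
    (h1 : ∀ a b : ℝ, t - R ≤ a → b ≤ t + R → (1 + e) * s ≤ b - a → ∃ x : ℝ, a ≤ x ∧ x ≤ b ∧ Z x)
    (h2 : ∀ x y : ℝ, t - R ≤ x → x < y → y ≤ t + R → Z x → Z y → (1 - e) * s ≤ y - x)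
    (hw : Z w) (hwim : w.im = 0) (hwt : |w.re - t| + 2 * s ≤ R) :
    ∃ a b : ℝ, a < w.re ∧ w.re < b ∧ Z a ∧ Z b ∧ (∀ z : ℂ, Z z → a < z.re → z.re < b → z = w) ∧
      (1 - e) * s ≤ w.re - a ∧ w.re - a ≤ (1 + 3 / 2 * e) * s ∧ (1 - e) * s ≤ b - w.re ∧ b - w.re ≤ (1 + 3 / 2 * e) * s := by
  have hes : 0 < e * s := by positivity
  have hes6 : e * s ≤ s / 6 := by nlinarith
  have hwZ : Z ((w.re : ℝ) : ℂ) := by
    have : ((w.re : ℝ) : ℂ) = w := by
      apply Complex.ext
      · simp
      · simp [hwim]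
    rw [this]; exact hw
  obtain ⟨c1, c2⟩ := abs_le.1 (show |w.re - t| ≤ R - 2 * s by linarith)
  -- right neighbour
  obtain ⟨b, hb1, hb2, hbZ⟩ := h1 (w.re + e * s / 2) (w.re + e * s / 2 + (1 + e) * s) (by linarith) (by nlinarith) (by linarith)
  have hb3 := h2 w.re b (by linarith) (by linarith) (by nlinarith) hwZ hbZ
  -- left neighbour
  obtain ⟨a, ha1, ha2, haZ⟩ := h1 (w.re - e * s / 2 - (1 + e) * s) (w.re - e * s / 2) (by nlinarith) (by linarith) (by linarith)
  have ha3 := h2 a w.re (by nlinarith) (by linarith) (by linarith) haZ hwZ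
  refine ⟨a, b, by linarith, by linarith, haZ, hbZ, ?_, ha3, by linarith, hb3, by linarith⟩
  intro z hz hz1 hz2
  have hzw : |z.re - w.re| ≤ 2 * s := by
    rw [abs_le]; constructor <;> nlinarith
  have hzt : |z.re - t| ≤ R := by
    obtain ⟨d1, d2⟩ := abs_le.1 hzw
    rw [abs_le]; constructor <;> linarith
  have hzim := hreal z hzt hzw hz
  have hzr : ((z.re : ℝ) : ℂ) = z := by
    apply Complex.ext
    · simp
    · simp [hzim]
  have hzZ : Z ((z.re : ℝ) : ℂ) := by rw [hzr]; exact hz
  obtain ⟨d1, d2⟩ := abs_le.1 hzt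
  rcases lt_trichotomy z.re w.re with h | h | h
  · exfalso
    have g1 := h2 a z.re (by nlinarith) hz1 (by linarith) haZ hzZ
    have g2 := h2 z.re w.re (by linarith) h (by linarith) hzZ hwZ
    nlinarith
  · apply Complex.ext h
    rw [hzim, hwim]
  · exfalso
    have g1 := h2 w.re z.re (by linarith) h (by linarith) hwZ hzZ
    have g2 := h2 z.re b (by linarith) hz2 (by nlinarith) hzZ hbZ
    nlinarith

open Classical in
theorem wine_proof (hLG : S_LGU) (hLOC : S_LOC) (hSPC : S_SPC) (hJEN : S_JEN) (hRUN : S_RUN) (hB0 : S_B0U) (hCH : S_CHAINU)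
    (hU : S_UNITU) : S_WINE := by
  intro ε hε
  set e : ℝ := min ε (1 / 2) / 3 with hedef
  have he0 : 0 < e := by rw [hedef]; have : 0 < min ε (1 / 2) := lt_min hε (by norm_num); linarith
  have he6 : e ≤ 1 / 6 := by rw [hedef]; have := min_le_right ε (1 / 2); linarith
  have heε : 3 * e ≤ ε := by rw [hedef]; have := min_le_left ε (1 / 2); linarith
  obtain ⟨η0, hη0, hη1, kL, hloc⟩ := hLOC
  obtain ⟨ηs, hηs0, hηs1, kS, hspc⟩ := hSPC e he0
  obtain ⟨c1, hc1, k1, T1, hlg⟩ := hLG (min η0 ηs) (lt_min hη0 hηs0) ((min_le_left _ _).trans hη1)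
  obtain ⟨c2, hc2, k2, T2, hb0⟩ := hB0
  obtain ⟨CU, T0u, hCU, hunit⟩ := hU
  set c : ℝ := min c1 c2 with hc
  have hc0 : 0 < c := lt_min hc1 hc2
  -- absorb constants
  have habs : ∀ᶠ k : ℕ in atTop, 257 * (1536 + 8 * CU) * (1 + 8 * Real.sqrt k) * Real.exp (-c * k) ≤ Real.exp (-(c / 2) * k) := by
    have h1 : ∀ᶠ x : ℝ in atTop, 257 * (1536 + 8 * CU) * (1 + 8 * x) ≤ Real.exp (c / 2 * x) := by
      have h2 := (isLittleO_pow_exp_pos_mul_atTop 1 (show 0 < c / 2 by positivity)).bound
        (show (0:ℝ) < 1 / (257 * (1536 + 8 * CU) * 9) by positivity)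
      filter_upwards [h2, eventually_ge_atTop 1] with x h3 h4
      rw [pow_one, Real.norm_eq_abs, Real.norm_eq_abs, abs_of_nonneg (by linarith), abs_of_pos (Real.exp_pos _)] at h3
      calc 257 * (1536 + 8 * CU) * (1 + 8 * x) ≤ 257 * (1536 + 8 * CU) * (9 * x) := by gcongr; linarith
        _ ≤ 257 * (1536 + 8 * CU) * (9 * (1 / (257 * (1536 + 8 * CU) * 9) * Real.exp (c / 2 * x))) := by gcongr
        _ = _ := by field_simp
    filter_upwards [tendsto_natCast_atTop_atTop.eventually h1, eventually_ge_atTop 1] with k h3 h4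
    have h5 : Real.sqrt k ≤ k := by
      rw [Real.sqrt_le_left (by positivity)]
      have : (1:ℝ) ≤ k := by exact_mod_cast h4
      nlinarith
    calc 257 * (1536 + 8 * CU) * (1 + 8 * Real.sqrt k) * Real.exp (-c * k)
        ≤ 257 * (1536 + 8 * CU) * (1 + 8 * k) * Real.exp (-c * k) := by gcongr
      _ ≤ Real.exp (c / 2 * k) * Real.exp (-c * k) := by gcongr
      _ = _ := by rw [← Real.exp_add]; congr 1; ring
  obtain ⟨k3, hk3⟩ := eventually_atTop.1 habs
  refine ⟨c / 2, by positivity, max (max kL k1) (max k2 (max k3 (max kS 4000))), max (max T1 T2) (max 4 (max (2 * T0u) (Real.exp (3 + 4 / e)))), fun T hTT k hk hbig S hS => ?_⟩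
  have hkL : kL ≤ k := (le_max_left _ _).trans ((le_max_left _ _).trans hk)
  have hkk1 : k1 ≤ k := (le_max_right _ _).trans ((le_max_left _ _).trans hk)
  have hkk2 : k2 ≤ k := (le_max_left _ _).trans ((le_max_right _ _).trans hk)
  have hkk3 : k3 ≤ k := (le_max_left _ _).trans ((le_max_right _ _).trans ((le_max_right _ _).trans hk))
  have hkS4 : max kS 4000 ≤ k := (le_max_right _ _).trans ((le_max_right _ _).trans ((le_max_right _ _).trans hk))
  have hkS : kS ≤ k := (le_max_left _ _).trans hkS4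
  have hk4000 : 4000 ≤ k := (le_max_right _ _).trans hkS4
  have hk4000' : (4000:ℝ) ≤ k := by exact_mod_cast hk4000
  have hkk4 : 1 ≤ k := by omega
  have hfin := hk3 k hkk3
  have hchain := hCH k hkk4
  have hk0 : (0:ℝ) < k := by exact_mod_cast hkk4
  have hk1' : (1:ℝ) ≤ k := by exact_mod_cast hkk4
  have hsq1 : 1 ≤ Real.sqrt k := by rw [Real.one_le_sqrt]; exact hk1'
  have hsqk : Real.sqrt k ≤ k := by
    rw [Real.sqrt_le_left (by positivity)]
    nlinarith
  have hTbig0 : max 4 (max (2 * T0u) (Real.exp (3 + 4 / e))) ≤ T := (le_max_right _ _).trans hTT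
  have hTbig : max 4 (2 * T0u) ≤ T := by
    refine max_le ((le_max_left _ _).trans hTbig0) ((le_max_left _ _).trans ((le_max_right _ _).trans hTbig0))
  have hTe : Real.exp (3 + 4 / e) ≤ T := (le_max_right _ _).trans ((le_max_right _ _).trans hTbig0)
  have hTpos : 0 < T := by
    have := (le_max_left 4 (2 * T0u)).trans hTbig
    linarith
  have hrg := rg hTpos hbig
  have hLG := hlg T ((le_max_left _ _).trans ((le_max_left _ _).trans hTT)) k hkk1 hbig
  have hB0 := hb0 T ((le_max_right _ _).trans ((le_max_left _ _).trans hTT)) k hkk2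
  have hlog := hrg.log50
  have hTL : 100 * (1 + Real.sqrt k) ≤ T / Real.log T := by
    have := hrg.TL
    linarith
  obtain ⟨B, hBm, hBv, hBt⟩ := hLG
  set L := Real.log T with hL
  set lam := lamT T with hlam
  have hT4 : 4 ≤ T := (le_max_left _ _).trans hTbig
  have hT0 : 0 < T := by linarith
  have hTu : 2 * T0u ≤ T := (le_max_right _ _).trans hTbig
  have hL0 : 0 < L := by linarith
  have hlam1 : 1 ≤ lam := hrg.lam1
  have hlam100 : 100 * k ≤ lam := hrg.lam100
  have hlam0 : 0 < lam := by linarith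
  have hpi := Real.pi_pos
  have hlam_le : lam ≤ L / 2 := hrg.le
  have hL_le : L ≤ 4 * lam := hrg.ge
  have hTk := hrg.Tk
  set r : ℝ := k / lam with hr
  have hr0 : 0 < r := by positivity
  have hr100 : r ≤ 1 / 100 := by
    rw [hr, div_le_div_iff₀ hlam0 (by norm_num)]
    linarith
  set ρ : ℝ := r / 64 with hρ
  have hρ0 : 0 < ρ := by positivity
  set Y : ℝ := T / L with hY
  have hY100 : 100 * (1 + Real.sqrt k) ≤ Y := hTL
  have hY0 : 0 < Y := by positivity
  have e10 : T / (10 * L) = Y / 10 := by rw [hY]; field_simp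
  have e4 : T / (4 * L) = Y / 4 := by rw [hY]; field_simp
  have hYT : Y ≤ T / 50 := by
    rw [hY]
    exact div_le_div_of_nonneg_left hT0.le (by norm_num) hlog
  set A : ℝ := T - Y / 10 with hA
  set J : ℕ := ⌈Y / 5 / ρ⌉₊ + 1 with hJ
  have hJ1 : Y / 5 < J * ρ := by
    have h1 := Nat.le_ceil (Y / 5 / ρ)
    have h2 : Y / 5 / ρ < J := by rw [hJ]; push_cast; linarith
    rwa [div_lt_iff₀ hρ0] at h2
  have hJ2 : J * ρ ≤ Y / 5 + 2 * ρ := by
    have h1 := Nat.ceil_lt_add_one (show 0 ≤ Y / 5 / ρ by positivity)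
    have h2 : (J:ℝ) ≤ Y / 5 / ρ + 2 := by rw [hJ]; push_cast; linarith
    calc (J:ℝ) * ρ ≤ (Y / 5 / ρ + 2) * ρ := mul_le_mul_of_nonneg_right h2 hρ0.le
      _ = _ := by field_simp
  have hρs : ρ ≤ 1 / 6400 := by rw [hρ]; linarith
  have hsq0 : 0 ≤ Real.sqrt k := Real.sqrt_nonneg _
  have hY200 : 200 ≤ Y := by linarith
  -- facts on exceptional zeros
  have hSre : ∀ w ∈ S, A ≤ w.re ∧ w.re ≤ T + Y / 10 := by
    intro w hw
    have := abs_le.1 (hS w hw).2.2
    rw [e10] at this
    constructor <;> linarith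
  have hchain' : ∀ w ∈ S, w.im ≠ 0 → ∃ z : ℂ, riemannZeta z = 0 ∧ 1 / 2 < z.re ∧ z.re ≤ 1 ∧
      |w.im| ≤ 11 / 10 * (z.re - 1 / 2) ∧ |z.im - w.re| ≤ 6 / 5 * Real.sqrt k * (z.re - 1 / 2) := by
    intro w hw him
    apply hchain w _ him (hS w hw).1
    have := (hSre w hw).1
    linarith
  have hLe : 3 + 4 / e ≤ L := by
    rw [hL]
    rwa [Real.le_log_iff_exp_le hT0]
  set sp : ℝ := Real.pi / lam with hsp
  have hsp0 : 0 < sp := by positivity
  have hspr : 1000 * sp ≤ r := by
    rw [hsp, hr, ← mul_div_assoc]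
    apply div_le_div_of_nonneg_right _ hlam0.le
    have := Real.pi_lt_four
    linarith
  have hSim : ∀ w ∈ S, |w.im| ≤ 1 := by
    intro w hw
    by_cases him : w.im = 0
    · rw [him, abs_zero]; norm_num
    · obtain ⟨z, _, _, h3, h4, _⟩ := hchain' w hw him
      linarith
  set E0 : Set ℂ := {z : ℂ | riemannZeta z = 0 ∧ 1 / 2 + r / 45 ≤ z.re ∧ z.re ≤ 1 ∧ |z.im - T| ≤ T / (4 * L)} with hE0
  set bad1 : ℕ → Prop := fun j => ∀ t : ℝ, A + j * ρ ≤ t → t < A + (j + 1) * ρ → t ∈ B with hbad1
  set bad2 : ℕ → Prop := fun j => ∃ z ∈ E0, A + j * ρ ≤ z.im + 3 * Real.sqrt k * (z.re - 1 / 2) ∧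
    z.im - 3 * Real.sqrt k * (z.re - 1 / 2) ≤ A + (j + 1) * ρ with hbad2
  set K : ℝ := (1536 + 8 * CU) * lam with hK
  have hK0 : 0 ≤ K := by positivity
  -- local facts at points outside B
  have htJ : ∀ (j : ℕ) (t : ℝ), j < J → A + j * ρ ≤ t → t ≤ A + (j + 1) * ρ → |t - T| ≤ T / (4 * L) := by
    intro j t hj h1 h2
    rw [e4, abs_le]
    have h3 : (j:ℝ) + 1 ≤ J := by exact_mod_cast hj
    have h4 : ((j:ℝ) + 1) * ρ ≤ J * ρ := mul_le_mul_of_nonneg_right h3 hρ0.le
    have h5 : 0 ≤ (j:ℝ) * ρ := by positivity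
    constructor <;> linarith
  have hlocal : ∀ (j : ℕ) (t : ℝ), j < J → A + j * ρ ≤ t → t ≤ A + (j + 1) * ρ → t ∉ B →
      LGd (FT Ph) k lam t η0 ∧ (∀ z : ℂ, ‖z - t‖ ≤ k / lam / 16 → iteratedDeriv k (FT Ph) z = 0 →
        z.im = 0 ∧ iteratedDeriv (k + 1) (FT Ph) z ≠ 0) ∧ Low (FT Ph) k lam t ∧
      (∀ a b : ℝ, t - k / lam / 16 ≤ a → b ≤ t + k / lam / 16 → (1 + e) * (Real.pi / lam) ≤ b - a →
        ∃ x : ℝ, a ≤ x ∧ x ≤ b ∧ iteratedDeriv k (FT Ph) x = 0) ∧
      (∀ x y : ℝ, t - k / lam / 16 ≤ x → x < y → y ≤ t + k / lam / 16 → iteratedDeriv k (FT Ph) x = 0 →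
        iteratedDeriv k (FT Ph) y = 0 → (1 - e) * (Real.pi / lam) ≤ y - x) := by
    intro j t hj h1 h2 h3
    have h40 := hBt t (htJ j t hj h1 h2) h3
    have h4 := LGd_mono hlam0 h40 (min_le_left η0 ηs)
    have h5 := LGd_mono hlam0 h40 (min_le_right η0 ηs)
    obtain ⟨g1, g2⟩ := hloc (FT Ph) ker_Ph.FT_diff loc_R.conj k hkL lam t hlam0 hr100 h4
    obtain ⟨g3, g4⟩ := hspc (FT Ph) ker_Ph.FT_diff loc_R.conj k hkS lam t hlam0 hr100 h5
    exact ⟨h4, g1, g2, g3, g4⟩
  have key := hRUN S (fun w => (analyticOrderNatAt (iteratedDeriv k (FT Ph)) w : ℝ)) A ρ K (1 / 128) J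
    (fun j => bad1 j ∨ bad2 j) (fun w => by positivity) hρ0 hK0 (by linarith) (by norm_num) (by linarith)
    (fun w hw => ⟨(hSre w hw).1, by linarith [(hSre w hw).2], hSim w hw⟩)
    (fun w hw j hj h1 h2 => by
      by_contra hnb
      push Not at hnb
      obtain ⟨hn1, hn2⟩ := hnb
      rw [hbad1] at hn1
      push Not at hn1
      obtain ⟨t, ht1, ht2, htB⟩ := hn1
      obtain ⟨_, hl1, _, hl2, hl3⟩ := hlocal j t hj ht1 ht2.le htB
      -- zeros far from the axis
      have hfar : ∀ z : ℂ, iteratedDeriv k (FT Ph) z = 0 → |z.re - w.re| ≤ 2 * sp → r / 40 < |z.im| →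
          A + j * ρ ≤ w.re + |z.im| → w.re - |z.im| ≤ A + (j + 1) * ρ → False := by
        intro v hv hvw hvim hw1 hw2
        obtain ⟨a3, a4⟩ := hSre w hw
        obtain ⟨d1, d2⟩ := abs_le.1 hvw
        have him0 : v.im ≠ 0 := by
          intro h; rw [h, abs_zero] at hvim; linarith
        obtain ⟨z, hz1, hz2, hz3, hz4, hz5⟩ := hchain v (by linarith) him0 hv
        obtain ⟨b, hb⟩ : ∃ b : ℝ, b = z.re - 1 / 2 := ⟨_, rfl⟩
        rw [← hb] at hz4 hz5
        have hb0 : 0 < b := by linarith
        have hb1 : b ≤ 1 / 2 := by linarith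
        obtain ⟨a1, a2⟩ := abs_le.1 hz5
        have hsb : 11 / 10 * b ≤ 11 / 10 * (Real.sqrt k * b) := by
          have := mul_le_mul_of_nonneg_right hsq1 hb0.le
          linarith
        have hsb0 : 0 ≤ Real.sqrt k * b := by positivity
        have hsb1 : Real.sqrt k * b ≤ Real.sqrt k / 2 := by
          have := mul_le_mul_of_nonneg_left hb1 hsq0
          linarith
        apply hn2
        refine ⟨z, ⟨hz1, by linarith, hz3, ?_⟩, ?_, ?_⟩
        · rw [e4, abs_le]
          constructor <;> linarith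
        · rw [← hb]
          linarith
        · rw [← hb]
          linarith
      rcases le_or_gt |w.im| (r / 40) with him | him
      · -- close to the axis
        have hd : ‖w - t‖ ≤ k / lam / 16 := by
          have h3 : |w.re - t| ≤ r / 40 + r / 64 := by
            rw [abs_le]
            constructor <;> linarith
          have h4 : ‖w - t‖ ^ 2 ≤ (r / 16) ^ 2 := by
            rw [← normSq_eq_norm_sq, normSq_apply]
            simp only [sub_re, sub_im, ofReal_re, ofReal_im, sub_zero]
            have h5 : (w.re - t) * (w.re - t) ≤ (r / 40 + r / 64) ^ 2 := by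
              rw [← sq, ← sq_abs]
              exact pow_le_pow_left₀ (abs_nonneg _) h3 2
            have h6 : w.im * w.im ≤ (r / 40) ^ 2 := by
              rw [← sq, ← sq_abs]
              exact pow_le_pow_left₀ (abs_nonneg _) him 2
            have h7 : (r / 40 + r / 64) ^ 2 + (r / 40) ^ 2 ≤ (r / 16) ^ 2 := by
              have h8 := sq_nonneg r
              have e8 : (r / 40 + r / 64) ^ 2 + (r / 40) ^ 2 = r ^ 2 * ((1 / 40 + 1 / 64) ^ 2 + (1 / 40) ^ 2) := by ring
              have e9 : (r / 16) ^ 2 = r ^ 2 * (1 / 16) ^ 2 := by ring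
              rw [e8, e9]
              exact mul_le_mul_of_nonneg_left (by norm_num) h8
            linarith
          have h7 : ‖w - t‖ ≤ r / 16 := by
            have := pow_le_pow_iff_left₀ (norm_nonneg (w - t)) (show 0 ≤ r / 16 by positivity) (two_ne_zero)
            exact this.1 h4
          exact h7
        obtain ⟨h8, h9⟩ := hl1 w hd (hS w hw).1
        apply (hS w hw).2.1
        rw [h8, abs_zero] at h1 h2
        have hwt : |w.re - t| ≤ r / 64 := by
          rw [abs_le]
          constructor <;> linarith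
        obtain ⟨a, b, n1, n2, n3, n4, n5, n6, n7, n8, n9⟩ := nbrs (Z := fun z => iteratedDeriv k (FT Ph) z = 0) (t := t)
          (R := k / lam / 16) (s := sp) (e := e) (w := w) hsp0 he0 he6
          (fun z hz1 hz2 hz3 => by
            rcases le_or_gt |z.im| (r / 40) with hzi | hzi
            · refine (hl1 z ?_ hz3).1
              have q1 : |z.re - t| ≤ r / 50 := by
                obtain ⟨d1, d2⟩ := abs_le.1 hz2
                obtain ⟨d3, d4⟩ := abs_le.1 hwt
                rw [abs_le]
                constructor <;> linarith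
              have q2 : ‖z - t‖ ≤ |(z - t).re| + |(z - t).im| := Complex.norm_le_abs_re_add_abs_im _
              have q3 : (z - (t:ℂ)).re = z.re - t := by simp
              have q4 : (z - (t:ℂ)).im = z.im := by simp
              rw [q3, q4] at q2
              show ‖z - t‖ ≤ r / 16
              linarith
            · exfalso
              have q5 := abs_nonneg z.im
              exact hfar z hz3 hz2 hzi (by linarith) (by linarith))
          hl2 hl3 (hS w hw).1 h8 (by
            show |w.re - t| + 2 * sp ≤ r / 16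
            linarith)
        refine ⟨h8, h9, a, b, n1, n2, n3, n4, n5, ?_⟩
        obtain ⟨a3, a4⟩ := hSre w hw
        obtain ⟨q, hq1, hq2, hq3⟩ : ∃ q : ℝ, 1 ≤ q ∧ q ≤ 1 + e ∧ sp * Real.log w.re / (2 * Real.pi) = q := by
          have hlamL : lam = (L - Real.log (2 * Real.pi)) / 2 := lamT_eq hT0
          have hl2pi := log_two_pi_le
          have hl2pi' : 1 ≤ Real.log (2 * Real.pi) := by
            rw [Real.le_log_iff_exp_le (by positivity)]
            have := Real.exp_one_lt_d9
            have := Real.pi_gt_three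
            linarith
          have hLe' : 0 < 4 / e := by positivity
          have hwpos : 0 < w.re := by linarith
          have hlogw1 : L - 1 ≤ Real.log w.re := by
            have g1 : Real.log (T * Real.exp (-1)) ≤ Real.log w.re := by
              apply Real.log_le_log (by positivity)
              have g2 : Real.exp (-1) ≤ 1 / 2 := by
                rw [Real.exp_neg, inv_eq_one_div]
                apply one_div_le_one_div_of_le (by norm_num)
                have := Real.exp_one_gt_d9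
                linarith
              nlinarith
            rw [Real.log_mul hT0.ne' (Real.exp_pos _).ne', Real.log_exp] at g1
            linarith
          have hlogw2 : Real.log w.re ≤ L + 1 := by
            have g1 : Real.log w.re ≤ Real.log (T * Real.exp 1) := by
              apply Real.log_le_log hwpos
              have := Real.exp_one_gt_d9
              nlinarith
            rw [Real.log_mul hT0.ne' (Real.exp_pos _).ne', Real.log_exp] at g1
            linarith
          refine ⟨_, ?_, ?_, rfl⟩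
          · rw [hsp, hlamL]
            rw [show Real.pi / ((L - Real.log (2 * Real.pi)) / 2) * Real.log w.re / (2 * Real.pi) =
              Real.log w.re / (L - Real.log (2 * Real.pi)) by field_simp]
            rw [le_div_iff₀ (by linarith)]
            linarith
          · rw [hsp, hlamL]
            rw [show Real.pi / ((L - Real.log (2 * Real.pi)) / 2) * Real.log w.re / (2 * Real.pi) =
              Real.log w.re / (L - Real.log (2 * Real.pi)) by field_simp]
            rw [div_le_iff₀ (by linarith)]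
            have g3 : 4 ≤ e * (L - 3) := by
              have : e * (4 / e) ≤ e * (L - 3) := mul_le_mul_of_nonneg_left (by linarith) he0.le
              rwa [mul_div_cancel₀ _ he0.ne'] at this
            have g4 : e * (L - 3) ≤ e * (L - Real.log (2 * Real.pi)) := mul_le_mul_of_nonneg_left (by linarith) he0.le
            linarith
        have hlw : 0 ≤ Real.log w.re / (2 * Real.pi) := by
          apply div_nonneg (Real.log_nonneg (by linarith)) (by positivity)
        have hfinal : ∀ g : ℝ, (1 - e) * sp ≤ g → g ≤ (1 + 3 / 2 * e) * sp →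
            |g * Real.log w.re / (2 * Real.pi) - 1| ≤ ε := by
          intro g g1 g2
          have g3 := mul_le_mul_of_nonneg_right g1 hlw
          have g4 := mul_le_mul_of_nonneg_right g2 hlw
          have e5 : (1 - e) * sp * (Real.log w.re / (2 * Real.pi)) = (1 - e) * q := by rw [← hq3]; ring
          have e6 : (1 + 3 / 2 * e) * sp * (Real.log w.re / (2 * Real.pi)) = (1 + 3 / 2 * e) * q := by rw [← hq3]; ring
          have e7 : g * (Real.log w.re / (2 * Real.pi)) = g * Real.log w.re / (2 * Real.pi) := by ring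
          rw [e5, e7] at g3
          rw [e6, e7] at g4
          have g5 : (1 - e) * 1 ≤ (1 - e) * q := mul_le_mul_of_nonneg_left hq1 (by linarith)
          have g6 : (1 + 3 / 2 * e) * q ≤ (1 + 3 / 2 * e) * (1 + e) := mul_le_mul_of_nonneg_left hq2 (by linarith)
          rw [abs_le]
          constructor
          · linarith
          · nlinarith
        exact ⟨hfinal _ n6 n7, hfinal _ n8 n9⟩
      · exact hfar w (hS w hw).1 (by rw [sub_self, abs_zero]; positivity) him h1 h2)
    (fun j hj hnb => by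
      push Not at hnb
      obtain ⟨hn1, hn2⟩ := hnb
      rw [hbad1] at hn1
      push Not at hn1
      obtain ⟨t, ht1, ht2, htB⟩ := hn1
      obtain ⟨hg, hl1, hlow, _, _⟩ := hlocal j t hj ht1 ht2.le htB
      refine ⟨t, ht1, ht2.le, fun ℓ hℓ1 hℓ2 => ?_⟩
      have h3 := hJEN (FT Ph) k lam t η0 ker_Ph.FT_diff hkk4 hlam0 hη0.le hη1 hg hlow (max (4 * ℓ) r)
        (le_max_right _ _) (max_le (by linarith) (by linarith)) (S.filter fun w : ℂ => ‖w - (t:ℂ)‖ ≤ 4 * ℓ)
        (fun w hw => by
          rw [Finset.mem_filter] at hw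
          exact ⟨(hS w hw.1).1, hw.2.trans (le_max_left _ _)⟩)
      refine h3.trans ?_
      have h4 : max (4 * ℓ) r ≤ 64 * ℓ := max_le (by linarith) (by linarith)
      calc 24 * lam * max (4 * ℓ) r ≤ 24 * lam * (64 * ℓ) := by gcongr
        _ = 1536 * lam * ℓ := by ring
        _ ≤ K * ℓ := by
            rw [hK]
            have hℓ0 : 0 < ℓ := lt_of_lt_of_le hρ0 hℓ1
            have : 0 ≤ 8 * CU * lam * ℓ := by positivity
            linarith)
    (fun t ht1 ht2 => by
      have ht3 : T0u ≤ t := by linarith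
      have ht4 : t ≤ 2 * T := by linarith
      have ht5 : 0 < t := by linarith
      have h3 := hunit t ht3 k (by
        have h5 : Real.log T ≤ Real.log (2 * t) := Real.log_le_log hT0 (by linarith)
        rw [Real.log_mul (by norm_num) ht5.ne'] at h5
        have h6 := Real.log_two_lt_d9
        linarith) (S.filter fun w : ℂ => ‖w - (t:ℂ)‖ ≤ 2) (fun w hw => by
        rw [Finset.mem_filter] at hw
        exact ⟨(hS w hw.1).1, hw.2⟩)
      refine h3.trans ?_
      have h4 : Real.log t ≤ 2 * L := by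
        calc Real.log t ≤ Real.log (2 * T) := Real.log_le_log ht5 ht4
          _ = Real.log 2 + L := by rw [Real.log_mul (by norm_num) hT0.ne']
          _ ≤ 2 * L := by
              have := Real.log_two_lt_d9
              linarith
      calc CU * Real.log t ≤ CU * (2 * L) := by gcongr
        _ ≤ CU * (2 * (4 * lam)) := by gcongr
        _ ≤ K := by
            rw [hK]
            have : 0 ≤ 1536 * lam := by positivity
            linarith)
  refine key.trans ?_
  -- counting the bad windows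
  have hcard : ((Finset.range J).filter fun j => bad1 j ∨ bad2 j).card ≤
      ((Finset.range J).filter bad1).card + ((Finset.range J).filter bad2).card := by
    rw [Finset.filter_or]
    exact Finset.card_union_le _ _
  have hb1 : ρ * (((Finset.range J).filter bad1).card : ℝ) ≤ Real.exp (-c1 * k) * Y := by
    apply card_windows (A := A) hρ0 (by positivity) _ _ hBv
    intro j hj t ht
    exact (Finset.mem_filter.1 hj).2 t ht.1 ht.2
  have hb2 : ρ * (((Finset.range J).filter bad2).card : ℝ) ≤ 8 * Real.sqrt k * (Real.exp (-c2 * k) * Y) := by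
    set s2 := (Finset.range J).filter bad2 with hs2
    have hch : ∀ j : ℕ, ∃ z : ℂ, j ∈ s2 → z ∈ E0 ∧ A + j * ρ ≤ z.im + 3 * Real.sqrt k * (z.re - 1 / 2) ∧
        z.im - 3 * Real.sqrt k * (z.re - 1 / 2) ≤ A + (j + 1) * ρ := by
      intro j
      by_cases hj : j ∈ s2
      · obtain ⟨z, h1, h2, h3⟩ := (Finset.mem_filter.1 hj).2
        exact ⟨z, fun _ => ⟨h1, h2, h3⟩⟩
      · exact ⟨0, fun h => absurd h hj⟩
    choose g hg using hch
    have h1 := card_windows2 (A := A) (κ := Real.sqrt k) hρ0 hsq1 s2 g (fun j hj => by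
      obtain ⟨a1, a2, a3⟩ := hg j hj
      refine ⟨?_, a2, a3⟩
      have := a1.2.1
      linarith)
    refine h1.trans (mul_le_mul_of_nonneg_left ?_ (by positivity))
    apply hB0
    intro z hz
    obtain ⟨j, hj, hjz⟩ := Finset.mem_image.1 hz
    rw [← hjz]
    exact (hg j hj).1
  have hcnt : ρ * ((((Finset.range J).filter fun j => bad1 j ∨ bad2 j).card : ℕ) : ℝ) ≤
      (1 + 8 * Real.sqrt k) * (Real.exp (-c * k) * Y) := by
    have h1 : ((((Finset.range J).filter fun j => bad1 j ∨ bad2 j).card : ℕ) : ℝ) ≤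
        (((Finset.range J).filter bad1).card : ℝ) + (((Finset.range J).filter bad2).card : ℝ) := by exact_mod_cast hcard
    have e1 : Real.exp (-c1 * k) ≤ Real.exp (-c * k) := by
      apply Real.exp_le_exp.2
      have : c ≤ c1 := min_le_left _ _
      have := mul_le_mul_of_nonneg_right this hk0.le
      linarith
    have e2 : Real.exp (-c2 * k) ≤ Real.exp (-c * k) := by
      apply Real.exp_le_exp.2
      have : c ≤ c2 := min_le_right _ _
      have := mul_le_mul_of_nonneg_right this hk0.le
      linarith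
    calc ρ * ((((Finset.range J).filter fun j => bad1 j ∨ bad2 j).card : ℕ) : ℝ)
        ≤ ρ * ((((Finset.range J).filter bad1).card : ℝ) + (((Finset.range J).filter bad2).card : ℝ)) := by gcongr
      _ = ρ * (((Finset.range J).filter bad1).card : ℝ) + ρ * (((Finset.range J).filter bad2).card : ℝ) := by ring
      _ ≤ Real.exp (-c1 * k) * Y + 8 * Real.sqrt k * (Real.exp (-c2 * k) * Y) := add_le_add hb1 hb2
      _ ≤ Real.exp (-c * k) * Y + 8 * Real.sqrt k * (Real.exp (-c * k) * Y) := by gcongr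
      _ = _ := by ring
  obtain ⟨N, hN⟩ : ∃ N : ℕ, N = ((Finset.range J).filter fun j => bad1 j ∨ bad2 j).card := ⟨_, rfl⟩
  have hcard' : ∀ inst : DecidablePred fun j => bad1 j ∨ bad2 j,
      (@Finset.filter ℕ (fun j => bad1 j ∨ bad2 j) inst (Finset.range J)).card = N := by
    intro inst
    rw [hN]
    congr!
  rw [hcard' _]
  rw [← hN] at hcnt
  calc (1 + 2 / (1 / 128)) * K * ρ * (N : ℝ) = 257 * K * (ρ * (N : ℝ)) := by ring
    _ ≤ 257 * K * ((1 + 8 * Real.sqrt k) * (Real.exp (-c * k) * Y)) := by gcongr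
    _ = (257 * (1536 + 8 * CU) * (1 + 8 * Real.sqrt k) * Real.exp (-c * k)) * (lam * Y) := by rw [hK]; ring
    _ ≤ Real.exp (-(c / 2) * k) * (lam * Y) := by gcongr
    _ ≤ Real.exp (-(c / 2) * k) * T := by
        gcongr
        calc lam * Y ≤ L / 2 * Y := by gcongr
          _ = T / 2 := by rw [hY]; field_simp
          _ ≤ T := by linarith

end Pool.Agent.H487.ED
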