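import Pool.Agent.H477.E.TopU
import Pool.Agent.H686.ED.Sade
import Pool.Agent.H721.ED.Twoe
import Pool.Agent.H277.ED.Spc
import Pool.Agent.H34.ED.Dya
import Pool.Agent.H487.ED.Win

set_option autoImplicit false

/-! Project ED, assembled. -/

namespace Pool.Agent.H487.ED

open Pool.Agent.H477.E
open Pool.Agent.H477.EU

theorem t_SPC : S_SPC := Pool.Agent.H277.ED.spc_proof (Pool.Agent.H721.ED.Twoe.twoe_proof Pool.Agent.H686.ED.sade_proof)

theorem t_WINE : S_WINE :=
  wine_proof t_LGU t_LOC t_SPC Pool.Agent.H894.JEN.JEN_proof Pool.Agent.H177.E.Run.run_proof Pool.Agent.H337.EU.b0u_proof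
    Pool.Agent.H548.E.chainU unitu

theorem t_DYA : S_DYA := Pool.Agent.H34.ED.dya_proof t_WINE t_ALLU

end Pool.Agent.H487.ED
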